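import Pool.Agent.Helper49.HW.Defs

/-!
# MP_074879_pr, block CA: depth first words
-/

open Finset

namespace HW

open Forest

theorem dfw_length (F : Forest) : F.dfw.length = F.vert := by
  induction F with
  | nil => rfl
  | cons c s ihc ihs =>
    simp only [dfw, vert, List.length_cons, List.length_append, ihc, ihs]

theorem stp_append (x y : List ℕ) : stp (x ++ y) = stp x + stp y := by
  simp [stp, List.map_append, List.sum_append]

theorem CA.stp_cons (a : ℕ) (x : List ℕ) : stp (a :: x) = (a : ℤ) - 1 + stp x := by
  simp [stp]

theorem CA.stp_nil : stp [] = 0 := by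
  simp [stp]

theorem stp_dfw (F : Forest) : stp F.dfw = -(F.len : ℤ) := by
  induction F with
  | nil => simp [dfw, len, stp]
  | cons c s ihc ihs =>
    simp only [dfw, len, CA.stp_cons, stp_append, ihc, ihs]
    push_cast
    ring

theorem stp_dfw_take (F : Forest) (i : ℕ) (hi : i < F.vert) :
    -(F.len : ℤ) < stp (F.dfw.take i) := by
  induction F generalizing i with
  | nil => simp [vert] at hi
  | cons c s ihc ihs =>
    simp only [vert] at hi
    rcases i with _ | j
    · simp only [List.take_zero, CA.stp_nil, len]
      push_cast
      have : (0 : ℤ) ≤ s.len := Int.natCast_nonneg _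
      linarith
    · simp only [dfw, List.take_succ_cons, CA.stp_cons, List.take_append, stp_append, len,
        dfw_length]
      rcases Nat.lt_or_ge j c.vert with hj | hj
      · have h1 := ihc j hj
        have h2 : j - c.vert = 0 := by omega
        rw [h2, List.take_zero, CA.stp_nil]
        push_cast
        have : (0 : ℤ) ≤ s.len := Int.natCast_nonneg _
        linarith
      · have h1 := ihs (j - c.vert) (by omega)
        have h2 : c.dfw.take j = c.dfw := List.take_of_length_le (by rw [dfw_length]; exact hj)
        rw [h2, stp_dfw]
        push_cast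
        linarith

theorem dfw_unique (F G : Forest) (r s : List ℕ) (h : F.dfw ++ r = G.dfw ++ s)
    (hl : F.len = G.len) : F = G ∧ r = s := by
  induction F generalizing G r s with
  | nil =>
    cases G with
    | nil => exact ⟨rfl, by simpa [dfw] using h⟩
    | cons c' s' => simp [len] at hl
  | cons c t ihc iht =>
    cases G with
    | nil => simp [len] at hl
    | cons c' t' =>
      simp only [dfw, List.cons_append, List.append_assoc, List.cons.injEq] at h
      obtain ⟨h1, h2⟩ := h
      obtain ⟨h3, h4⟩ := ihc c' _ _ h2 h1
      obtain ⟨h5, h6⟩ := iht t' _ _ h4 (by simpa [len] using hl)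
      rw [h3, h5]
      exact ⟨rfl, h6⟩

theorem CA.split (G : Forest) (k : ℕ) (hk : k ≤ G.len) :
    ∃ c s : Forest, c.len = k ∧ s.len = G.len - k ∧ G.dfw = c.dfw ++ s.dfw := by
  induction G generalizing k with
  | nil =>
    simp only [len] at hk
    exact ⟨nil, nil, by simp only [len]; omega, by simp only [len]; omega, rfl⟩
  | cons a b _ ihb =>
    rcases k with _ | k
    · exact ⟨nil, cons a b, rfl, by simp [len], rfl⟩
    · simp only [len] at hk
      obtain ⟨c, s, h1, h2, h3⟩ := ihb k (by omega)
      refine ⟨cons a c, s, by simp only [len, h1], by simp only [len, h2]; omega, ?_⟩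
      simp only [dfw, h3, List.cons_append, List.append_assoc]

theorem exists_forest (x : List ℕ) (r : ℕ) (h1 : stp x = -(r : ℤ))
    (h2 : ∀ i < x.length, -(r : ℤ) < stp (x.take i)) : ∃ F : Forest, F.dfw = x ∧ F.len = r := by
  induction x generalizing r with
  | nil =>
    rw [CA.stp_nil] at h1
    have : r = 0 := by omega
    exact ⟨nil, rfl, this.symm⟩
  | cons k y ih =>
    rcases r with _ | r
    · have := h2 0 (by simp)
      simp [CA.stp_nil] at this
    · rw [CA.stp_cons] at h1
      push_cast at h1
      obtain ⟨G, hG, hGl⟩ := ih (r + k) (by push_cast; linarith) (by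
        intro i hi
        have := h2 (i + 1) (by simpa using hi)
        rw [List.take_succ_cons, CA.stp_cons] at this
        push_cast at this ⊢
        linarith)
      obtain ⟨c, s, h3, h4, h5⟩ := CA.split G k (by omega)
      refine ⟨cons c s, ?_, ?_⟩
      · simp only [dfw, h3, ← h5, hG]
      · simp only [len]; omega

theorem CA.finite_vert_le (n : ℕ) : {F : Forest | F.vert ≤ n}.Finite := by
  induction n with
  | zero =>
    refine (Set.finite_singleton nil).subset ?_
    intro F hF
    cases F with
    | nil => rfl
    | cons c s => simp [vert] at hF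
  | succ n ih =>
    refine ((Set.finite_singleton nil).union (ih.image2 cons ih)).subset ?_
    intro F hF
    cases F with
    | nil => left; rfl
    | cons c s =>
      right
      simp only [Set.mem_ofPred_eq, vert] at hF
      refine ⟨c, ?_, s, ?_, rfl⟩ <;> simp only [Set.mem_ofPred_eq] <;> omega

theorem finite_treeSet (n : ℕ) : (treeSet n).Finite := by
  refine (CA.finite_vert_le n).subset ?_
  rintro F ⟨_, h⟩
  exact h.le

theorem mem_trees (n : ℕ) (T : Forest) : T ∈ trees n ↔ T.len = 1 ∧ T.vert = n := by
  unfold trees
  rw [dif_pos (finite_treeSet n), Set.Finite.mem_toFinset]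
  rfl

theorem wt_eq_prod (w : ℕ → ℝ) (F : Forest) : F.wt w = (F.dfw.map w).prod := by
  induction F with
  | nil => simp [wt, dfw]
  | cons c s ihc ihs =>
    simp only [wt, dfw, List.map_cons, List.map_append, List.prod_cons, List.prod_append, ihc, ihs]
    ring

end HW
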