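import Pool.Agent.Helper49.HW.SDefs
import Pool.Agent.Helper14.HW.CA

/-!
# MP_074879_pr, block F1: sums over plane trees versus `TS`
-/

open Finset

namespace HW

open Forest

namespace F1

theorem ht_le_vert (F : Forest) : F.ht ≤ F.vert := by
  induction F with
  | nil => simp [ht, vert]
  | cons c s ihc ihs => simp only [ht, vert]; omega

theorem lev_le_vert (F : Forest) : ∀ k, F.lev k ≤ F.vert := by
  induction F with
  | nil => intro k; simp [lev]
  | cons c s ihc ihs =>
    intro k
    cases k with
    | zero =>
      have := ihs 0
      simp only [lev, vert]; omega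
    | succ k =>
      have h1 := ihc k
      have h2 := ihs (k + 1)
      simp only [lev, vert]; omega

theorem lev_eq_zero (F : Forest) : ∀ k, F.ht ≤ k → F.lev k = 0 := by
  induction F with
  | nil => intro k _; simp [lev]
  | cons c s ihc ihs =>
    intro k hk
    simp only [ht] at hk
    cases k with
    | zero => omega
    | succ k =>
      have h1 := ihc k (by omega)
      have h2 := ihs (k + 1) (by omega)
      simp only [lev]; omega

theorem ht_pos (F : Forest) (h : 1 ≤ F.vert) : 1 ≤ F.ht := by
  cases F with
  | nil => simp [vert] at h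
  | cons c s => simp only [ht]; omega

theorem lev_cons_nil (c : Forest) : (Forest.cons c Forest.nil).lev = treeLevel c := by
  funext k
  cases k with
  | zero => simp [lev, treeLevel]
  | succ k => simp [lev, treeLevel]

theorem cons_nil_inj : Function.Injective (fun c : Forest => Forest.cons c Forest.nil) := by
  intro a b h
  simpa using h

theorem exists_of_len_one (T : Forest) (h : T.len = 1) : ∃ c, T = Forest.cons c Forest.nil := by
  cases T with
  | nil => simp [len] at h
  | cons c s =>
    cases s with
    | nil => exact ⟨c, rfl⟩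
    | cons c' s' => simp [len] at h

theorem vert_cons_nil (c : Forest) : (Forest.cons c Forest.nil).vert = treeSize c := by
  simp [vert, treeSize]

theorem wt_cons_nil (μ : ℕ → ℝ) (c : Forest) :
    (Forest.cons c Forest.nil).wt μ = treeProb μ c := by
  simp [wt, treeProb]

end F1

open F1

/-- F1: sums over plane trees (forest of the subtrees of the root) versus `TS` -/
theorem tsum_tree_eq_TS (μ : ℕ → ℝ) (n : ℕ) (A : PTree → Prop) [DecidablePred A] :
    (∑' T : PTree, if treeSize T = n ∧ A T then treeProb μ T else 0) =
      TS n μ (fun T => ∃ c, T = Forest.cons c Forest.nil ∧ A c) := by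
  classical
  set S : Finset Forest := (trees n).preimage (fun c : Forest => Forest.cons c Forest.nil)
    cons_nil_inj.injOn with hS
  have hmem : ∀ c, c ∈ S ↔ treeSize c = n := by
    intro c
    rw [hS, Finset.mem_preimage, mem_trees, vert_cons_nil]
    simp [len]
  have himg : trees n = S.image (fun c : Forest => Forest.cons c Forest.nil) := by
    ext T
    rw [Finset.mem_image]
    constructor
    · intro hT
      obtain ⟨h1, h2⟩ := (mem_trees n T).1 hT
      obtain ⟨c, rfl⟩ := exists_of_len_one T h1
      exact ⟨c, by rw [hS, Finset.mem_preimage]; exact hT, rfl⟩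
    · rintro ⟨c, hc, rfl⟩
      rw [hS, Finset.mem_preimage] at hc
      exact hc
  rw [tsum_eq_sum (s := S) (fun c hc => by
    rw [if_neg]
    exact fun h => hc ((hmem c).2 h.1))]
  unfold TS
  rw [himg, Finset.sum_image (fun a _ b _ h => cons_nil_inj h)]
  refine Finset.sum_congr rfl fun c hc => ?_
  have h1 := (hmem c).1 hc
  rw [wt_cons_nil]
  by_cases hA : A c
  · rw [if_pos ⟨h1, hA⟩, if_pos ⟨c, rfl, hA⟩]
  · rw [if_neg (fun h => hA h.2), if_neg]
    rintro ⟨d, hd, hAd⟩
    rw [cons_nil_inj hd] at hA
    exact hA hAd

theorem sizeProb_eq_TS (μ : ℕ → ℝ) (n : ℕ) : sizeProb μ n = TS n μ (fun _ => True) := by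
  classical
  have h := tsum_tree_eq_TS μ n (fun _ => True)
  unfold sizeProb
  simp only [and_true] at h
  rw [h]
  unfold TS
  refine Finset.sum_congr rfl fun T hT => ?_
  obtain ⟨h1, h2⟩ := (mem_trees n T).1 hT
  obtain ⟨c, rfl⟩ := exists_of_len_one T h1
  rw [if_pos ⟨c, rfl⟩, if_pos trivial]

theorem wid_cons (c : Forest) : wid (Forest.cons c Forest.nil) = treeWidth c := by
  unfold wid treeWidth
  rw [lev_cons_nil, vert_cons_nil]
  have hle := ht_le_vert c
  unfold treeHeight treeSize
  apply le_antisymm
  · refine Finset.sup_le fun k hk => ?_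
    by_cases hk2 : k < c.ht + 1
    · exact Finset.le_sup (f := treeLevel c) (Finset.mem_range.2 hk2)
    · have : treeLevel c k = 0 := by
        cases k with
        | zero => omega
        | succ k =>
          simp only [treeLevel]
          exact lev_eq_zero c k (by omega)
      rw [this]
      exact Nat.zero_le _
  · refine Finset.sup_mono ?_
    intro k hk
    rw [Finset.mem_range] at *
    omega

theorem hei_cons (c : Forest) : hei (Forest.cons c Forest.nil) = treeHeight c := by
  simp [hei, treeHeight, ht]

/-- crude bounds for small `n` -/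
theorem tree_bounds (c : PTree) (hc : 2 ≤ treeSize c) :
    1 ≤ treeHeight c * treeWidth c ∧ treeHeight c * treeWidth c ≤ treeSize c ^ 2 := by
  have h1 : 1 ≤ c.vert := by unfold treeSize at hc; omega
  have h2 := ht_pos c h1
  have h3 := ht_le_vert c
  have h4 : 1 ≤ treeWidth c := by
    unfold treeWidth
    exact Finset.le_sup (f := treeLevel c) (b := 0) (Finset.mem_range.2 (Nat.succ_pos _))
  have h5 : treeWidth c ≤ treeSize c := by
    unfold treeWidth
    refine Finset.sup_le fun k _ => ?_
    cases k with
    | zero => simp only [treeLevel]; omega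
    | succ k =>
      simp only [treeLevel, treeSize]
      have := lev_le_vert c k
      omega
  have h6 : treeHeight c ≤ treeSize c := by unfold treeHeight treeSize; omega
  have h7 : 1 ≤ treeHeight c := h2
  constructor
  · exact Nat.mul_le_mul h7 h4
  · rw [pow_two]; exact Nat.mul_le_mul h6 h5

end HW
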