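import Pool.Agent.Helper49.HW.Defs2
import Pool.Agent.Helper14.HW.CA
import Pool.Agent.Helper92.HW.PA

/-!
# MP_074879_pr, block N1: scaling and decomposition
-/

open Finset

namespace HW

open Forest

namespace N1

theorem prod_scale (w : ℕ → ℝ) (c s : ℝ) (x : List ℕ) :
    (x.map (fun k : ℕ => c * Real.exp (-s * ((k : ℝ) - 1)) * w k)).prod =
      c ^ x.length * Real.exp (-s * (stp x : ℤ)) * (x.map w).prod := by
  induction x with
  | nil => simp [stp]
  | cons a l ih =>
    simp only [List.map_cons, List.prod_cons, ih, List.length_cons, CA.stp_cons]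
    push_cast
    rw [show -s * ((a : ℝ) - 1 + (stp l : ℝ)) = -s * ((a : ℝ) - 1) + -s * (stp l : ℝ) by ring,
      Real.exp_add]
    ring

theorem symsum_scale (γ p : ℕ → ℝ) (c s : ℝ) (x : List ℕ) :
    symsum (fun k : ℕ => c * Real.exp (-s * ((k : ℝ) - 1)) * γ k)
      (fun k : ℕ => c * Real.exp (-s * ((k : ℝ) - 1)) * p k) x =
      c ^ x.length * Real.exp (-s * (stp x : ℤ)) * symsum γ p x := by
  induction x with
  | nil => simp [symsum]
  | cons a l ih =>
    simp only [symsum, prod_scale, ih, List.length_cons, CA.stp_cons]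
    push_cast
    rw [show -s * ((a : ℝ) - 1 + (stp l : ℝ)) = -s * ((a : ℝ) - 1) + -s * (stp l : ℝ) by ring,
      Real.exp_add]
    ring

theorem len_le_vert (F : Forest) : F.len ≤ F.vert := by
  induction F with
  | nil => simp [len, vert]
  | cons c s _ ih => simp only [len, vert]; omega

theorem letter_lt (F : Forest) (a : ℕ) (h : a ∈ F.dfw) : a < F.vert := by
  induction F with
  | nil => simp [dfw] at h
  | cons c s ihc ihs =>
    simp only [dfw, List.mem_cons, List.mem_append] at h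
    simp only [vert]
    rcases h with h | h | h
    · have := len_le_vert c
      omega
    · have := ihc h
      omega
    · have := ihs h
      omega

theorem prod_nonneg (p : ℕ → ℝ) (hp : ∀ k, 0 ≤ p k) (x : List ℕ) : 0 ≤ (x.map p).prod := by
  induction x with
  | nil => simp
  | cons a l ih =>
    simp only [List.map_cons, List.prod_cons]
    exact mul_nonneg (hp a) ih

theorem symsum_nonneg (γ p : ℕ → ℝ) (hγ : ∀ k, 0 ≤ γ k) (hp : ∀ k, 0 ≤ p k) (x : List ℕ) :
    0 ≤ symsum γ p x := by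
  induction x with
  | nil => simp [symsum]
  | cons a l ih =>
    simp only [symsum]
    exact add_nonneg (mul_nonneg (hγ a) (prod_nonneg p hp l)) (mul_nonneg (hp a) ih)

variable {a b : ℕ → ℝ}

theorem prod_mono (ha : ∀ k, 0 ≤ a k) (hb : ∀ k, 0 ≤ b k) (x : List ℕ) :
    (x.map a).prod ≤ (x.map (fun k => a k + b k)).prod := by
  induction x with
  | nil => simp
  | cons h l ih =>
    simp only [List.map_cons, List.prod_cons]
    exact mul_le_mul (le_add_of_nonneg_right (hb h)) ih (prod_nonneg a ha l)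
      (add_nonneg (ha h) (hb h))

theorem symsum_mono (ha : ∀ k, 0 ≤ a k) (hb : ∀ k, 0 ≤ b k) (x : List ℕ) :
    symsum b a x ≤ symsum b (fun k => a k + b k) x := by
  induction x with
  | nil => simp [symsum]
  | cons h l ih =>
    simp only [symsum]
    refine add_le_add (mul_le_mul_of_nonneg_left (prod_mono ha hb l) (hb h)) ?_
    exact mul_le_mul (le_add_of_nonneg_right (hb h)) ih (symsum_nonneg b a hb ha l)
      (add_nonneg (ha h) (hb h))

theorem prod_add_le (ha : ∀ k, 0 ≤ a k) (hb : ∀ k, 0 ≤ b k) (x : List ℕ) :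
    (x.map (fun k => a k + b k)).prod ≤
      (x.map a).prod + symsum b (fun k => a k + b k) x := by
  induction x with
  | nil => simp [symsum]
  | cons h l ih =>
    simp only [List.map_cons, List.prod_cons, symsum]
    have h1 := mul_le_mul_of_nonneg_left ih (ha h)
    have h2 := mul_nonneg (hb h)
      (symsum_nonneg b (fun k => a k + b k) hb (fun k => add_nonneg (ha k) (hb k)) l)
    linarith

theorem prod_add_ge (ha : ∀ k, 0 ≤ a k) (hb : ∀ k, 0 ≤ b k) (x : List ℕ) :
    (x.map a).prod + symsum b a x ≤ (x.map (fun k => a k + b k)).prod := by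
  induction x with
  | nil => simp [symsum]
  | cons h l ih =>
    simp only [List.map_cons, List.prod_cons, symsum]
    have h1 := mul_le_mul_of_nonneg_left ih (ha h)
    have h2 := mul_le_mul_of_nonneg_left ih (hb h)
    have h3 := mul_nonneg (hb h) (symsum_nonneg b a hb ha l)
    linarith

theorem E_sub (p : ℕ → ℝ) (K : ℕ) : ∀ (N : ℕ) (F G : List ℕ → ℝ),
    E p K N (fun x => F x - G x) = E p K N F - E p K N G
  | 0, F, G => by simp [E]
  | N + 1, F, G => by
    simp only [E]
    rw [← Finset.sum_sub_distrib]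
    refine Finset.sum_congr rfl fun k _ => ?_
    rw [E_sub p K N (fun l => F (k :: l)) (fun l => G (k :: l))]
    ring

theorem E_nonneg (p : ℕ → ℝ) (hp : ∀ k, 0 ≤ p k) (K : ℕ) : ∀ (N : ℕ) (F : List ℕ → ℝ),
    (∀ x, 0 ≤ F x) → 0 ≤ E p K N F
  | 0, F, h => by simpa [E] using h []
  | N + 1, F, h => by
    simp only [E]
    exact Finset.sum_nonneg fun k _ => mul_nonneg (hp k) (E_nonneg p hp K N _ fun x => h _)

theorem E_le_add (ha : ∀ k, 0 ≤ a k) (hb : ∀ k, 0 ≤ b k) (K : ℕ) : ∀ (N : ℕ) (F : List ℕ → ℝ),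
    (∀ x, 0 ≤ F x) → E a K N F ≤ E (fun k => a k + b k) K N F
  | 0, F, h => by simp [E]
  | N + 1, F, h => by
    simp only [E]
    refine Finset.sum_le_sum fun k _ => ?_
    exact mul_le_mul (le_add_of_nonneg_right (hb k)) (E_le_add ha hb K N _ fun x => h _)
      (E_nonneg a ha K N _ fun x => h _) (add_nonneg (ha k) (hb k))

end N1

open N1

theorem TS_scale (n : ℕ) (w : ℕ → ℝ) (c s : ℝ) (A : Forest → Prop) :
    TS n (fun k => c * Real.exp (-s * ((k : ℝ) - 1)) * w k) A =
      c ^ n * Real.exp s * TS n w A := by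
  classical
  unfold TS
  rw [Finset.mul_sum]
  refine Finset.sum_congr rfl fun T hT => ?_
  obtain ⟨h1, h2⟩ := (mem_trees n T).1 hT
  split_ifs with h
  · rw [wt_eq_prod, wt_eq_prod, prod_scale, dfw_length, h2, stp_dfw, h1]
    push_cast
    rw [show -s * -1 = s by ring]
  · rw [mul_zero]

theorem TM_scale (n : ℕ) (γ p : ℕ → ℝ) (c s : ℝ) (A : Forest → Prop) :
    TM n (fun k => c * Real.exp (-s * ((k : ℝ) - 1)) * γ k)
        (fun k => c * Real.exp (-s * ((k : ℝ) - 1)) * p k) A =
      c ^ n * Real.exp s * TM n γ p A := by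
  classical
  unfold TM
  rw [Finset.mul_sum]
  refine Finset.sum_congr rfl fun T hT => ?_
  obtain ⟨h1, h2⟩ := (mem_trees n T).1 hT
  split_ifs with h
  · rw [symsum_scale, dfw_length, h2, stp_dfw, h1]
    push_cast
    rw [show -s * -1 = s by ring]
  · rw [mul_zero]

theorem TS_congr (n : ℕ) (w w' : ℕ → ℝ) (h : ∀ k < n, w k = w' k) (A : Forest → Prop) :
    TS n w A = TS n w' A := by
  classical
  unfold TS
  refine Finset.sum_congr rfl fun T hT => ?_
  obtain ⟨h1, h2⟩ := (mem_trees n T).1 hT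
  have : T.wt w = T.wt w' := by
    rw [wt_eq_prod, wt_eq_prod]
    congr 1
    refine List.map_congr_left fun a ha => h a ?_
    rw [← h2]
    exact letter_lt T a ha
  rw [this]

theorem TS_nonneg (n : ℕ) (w : ℕ → ℝ) (hw : ∀ k, 0 ≤ w k) (A : Forest → Prop) :
    0 ≤ TS n w A := by
  classical
  unfold TS
  refine Finset.sum_nonneg fun T _ => ?_
  split_ifs
  · rw [wt_eq_prod]; exact prod_nonneg w hw _
  · exact le_rfl

theorem TS_mono (n : ℕ) (w : ℕ → ℝ) (hw : ∀ k, 0 ≤ w k) (A B : Forest → Prop)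
    (h : ∀ T, A T → B T) : TS n w A ≤ TS n w B := by
  classical
  unfold TS
  refine Finset.sum_le_sum fun T _ => ?_
  have h0 : 0 ≤ T.wt w := by rw [wt_eq_prod]; exact prod_nonneg w hw _
  by_cases hA : A T
  · rw [if_pos hA, if_pos (h T hA)]
  · rw [if_neg hA]
    split_ifs
    · exact h0
    · exact le_rfl

theorem TM_nonneg (n : ℕ) (γ p : ℕ → ℝ) (hγ : ∀ k, 0 ≤ γ k) (hp : ∀ k, 0 ≤ p k)
    (A : Forest → Prop) : 0 ≤ TM n γ p A := by
  classical
  unfold TM
  refine Finset.sum_nonneg fun T _ => ?_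
  split_ifs
  · exact symsum_nonneg γ p hγ hp _
  · exact le_rfl

theorem TM_mono (n : ℕ) (γ p : ℕ → ℝ) (hγ : ∀ k, 0 ≤ γ k) (hp : ∀ k, 0 ≤ p k)
    (A B : Forest → Prop) (h : ∀ T, A T → B T) : TM n γ p A ≤ TM n γ p B := by
  classical
  unfold TM
  refine Finset.sum_le_sum fun T _ => ?_
  have h0 : 0 ≤ symsum γ p T.dfw := symsum_nonneg γ p hγ hp _
  by_cases hA : A T
  · rw [if_pos hA, if_pos (h T hA)]
  · rw [if_neg hA]
    split_ifs
    · exact h0
    · exact le_rfl

theorem TS_add_le (n : ℕ) (a b : ℕ → ℝ) (ha : ∀ k, 0 ≤ a k) (hb : ∀ k, 0 ≤ b k)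
    (A : Forest → Prop) :
    TS n (fun k => a k + b k) A ≤ TS n a A + TM n b (fun k => a k + b k) A := by
  classical
  unfold TS TM
  rw [← Finset.sum_add_distrib]
  refine Finset.sum_le_sum fun T _ => ?_
  split_ifs
  · rw [wt_eq_prod, wt_eq_prod]
    exact prod_add_le ha hb _
  · simp

theorem TM_add_le (n : ℕ) (a b : ℕ → ℝ) (ha : ∀ k, 0 ≤ a k) (hb : ∀ k, 0 ≤ b k)
    (A : Forest → Prop) :
    TM n b (fun k => a k + b k) A ≤ TM n b a A +
      (TM n b (fun k => a k + b k) (fun _ => True) - TM n b a (fun _ => True)) := by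
  classical
  unfold TM
  rw [← Finset.sum_sub_distrib, ← Finset.sum_add_distrib]
  refine Finset.sum_le_sum fun T _ => ?_
  have h0 := symsum_mono ha hb T.dfw
  simp only [if_true]
  split_ifs
  · linarith
  · linarith

theorem TS_add_ge (n : ℕ) (a b : ℕ → ℝ) (ha : ∀ k, 0 ≤ a k) (hb : ∀ k, 0 ≤ b k) :
    TS n a (fun _ => True) ≤ TS n (fun k => a k + b k) (fun _ => True) ∧
    TM n b a (fun _ => True) ≤ TS n (fun k => a k + b k) (fun _ => True) := by
  classical
  unfold TS TM
  simp only [if_true]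
  constructor
  · refine Finset.sum_le_sum fun T _ => ?_
    rw [wt_eq_prod, wt_eq_prod]
    exact prod_mono ha hb _
  · refine Finset.sum_le_sum fun T _ => ?_
    rw [wt_eq_prod]
    have h1 := prod_add_ge ha hb T.dfw
    have h2 := prod_nonneg a ha T.dfw
    linarith

end HW
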