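import Pool.Agent.Helper14.HW.N1
import Pool.Agent.Helper55.HW.CD

/-!
# MP_074879_pr, block N1 (second half): the two bounds which use TM_univ
-/

open Finset

namespace HW

open Forest N1

/-- uses TM_univ, Pr_le_pow -/
theorem TM_le_sup (n K : ℕ) (hn : 1 ≤ n) (hK : n ≤ K) (γ p : ℕ → ℝ) (hγ : ∀ k, 0 ≤ γ k)
    (hp : ∀ k, 0 ≤ p k) (Γ : ℝ) (hΓ : ∀ k, γ k ≤ Γ) (A : Forest → Prop) :
    TM n γ p A ≤ Γ * (∑ k ∈ range K, p k) ^ (n - 1) := by
  have hΓ0 : 0 ≤ Γ := (hγ 0).trans (hΓ 0)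
  refine (TM_mono n γ p hγ hp A (fun _ => True) fun _ _ => trivial).trans ?_
  rw [TM_univ n K hn hK]
  have h1 := sum_Pr_le K (n - 1) γ p hγ hp Γ hΓ (fun _ _ => True) (fun _ => True)
    (fun _ _ _ _ _ => trivial)
  simp only [and_true] at h1
  exact h1.trans (mul_le_mul_of_nonneg_left (Pr_le_pow p K (n - 1) hp _) hΓ0)

/-- uses TM_univ, Pr_le_pow; the total weight with at least one more marked vertex -/
theorem TM_add_sub_le (n K : ℕ) (hn : 1 ≤ n) (hK : n ≤ K) (a b : ℕ → ℝ) (ha : ∀ k, 0 ≤ a k)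
    (hb : ∀ k, 0 ≤ b k) (Γ Q : ℝ) (hΓ : ∀ k, b k ≤ Γ) (ha1 : ∑ k ∈ range K, a k = 1)
    (hQ : ∑ k ∈ range K, b k ≤ Q) :
    TM n b (fun k => a k + b k) (fun _ => True) - TM n b a (fun _ => True) ≤
      Γ * ((1 + Q) ^ (n - 1) - 1) := by
  classical
  have hΓ0 : 0 ≤ Γ := (hb 0).trans (hΓ 0)
  rw [TM_univ n K hn hK, TM_univ n K hn hK]
  unfold Pr
  rw [E_sum_mul_PA, E_sum_mul_PA]
  beta_reduce
  set F : List ℕ → ℝ := fun x => ∑ k ∈ range K, b k * (if stp x = -(k : ℤ) then 1 else 0) with hF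
  have hFle : ∀ x, F x ≤ Γ := by
    intro x
    by_cases hex : ∃ k ∈ range K, stp x = -(k : ℤ)
    · obtain ⟨k, hk, hsk⟩ := hex
      simp only [hF]
      rw [Finset.sum_eq_single k]
      · rw [if_pos hsk, mul_one]
        exact hΓ k
      · intro j _ hj
        rw [if_neg, mul_zero]
        intro h
        apply hj
        have : (j : ℤ) = k := by linarith
        exact_mod_cast this
      · intro h
        exact absurd hk h
    · simp only [hF]
      rw [Finset.sum_eq_zero]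
      · exact hΓ0
      · intro k hk
        rw [if_neg, mul_zero]
        exact fun h => hex ⟨k, hk, h⟩
  have h1 := E_le_add ha hb K (n - 1) (fun x => Γ - F x) (fun x => sub_nonneg.2 (hFle x))
  rw [E_sub a K (n - 1) (fun _ => Γ) F, E_sub (fun k => a k + b k) K (n - 1) (fun _ => Γ) F] at h1
  have h2 : ∀ p : ℕ → ℝ, E p K (n - 1) (fun _ => Γ) = Γ * (∑ k ∈ range K, p k) ^ (n - 1) := by
    intro p
    rw [← E_one_PA, E_mul_PA]
    simp only [mul_one]
  rw [h2, h2, ha1, one_pow, Finset.sum_add_distrib, ha1] at h1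
  have h3 : (1 + ∑ k ∈ range K, b k) ^ (n - 1) ≤ (1 + Q) ^ (n - 1) := by
    have h4 : 0 ≤ ∑ k ∈ range K, b k := Finset.sum_nonneg fun k _ => hb k
    exact pow_le_pow_left₀ (by linarith) (by linarith) _
  have h5 := mul_le_mul_of_nonneg_left h3 hΓ0
  have h6 : E (fun k => a k + b k) K (n - 1) F - E a K (n - 1) F ≤
      Γ * ((1 + Q) ^ (n - 1) - 1) := by linarith
  convert h6

end HW
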